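import Pool.Agent.TH970.SE.Lam

/-! For every `n ≥ 1` the spectrum of the exponent `λ_n` is `[1/n, ∞]`. -/

set_option autoImplicit false

namespace Pool.Agent.Results.MP_d6cb56_nt.SimultaneousSpectrum

/-- The integer points `x = (x_0, ..., x_n)` with `x_0 ≠ 0` and
`|x_0 ξ^j - x_j| ≤ |x_0|^(-l)` for `1 ≤ j ≤ n`. -/
def solutions (n : ℕ) (ξ l : ℝ) : Set (Fin (n + 1) → ℤ) :=
  {x | x 0 ≠ 0 ∧ ∀ j : Fin (n + 1), 1 ≤ (j : ℕ) →
    |(x 0 : ℝ) * ξ ^ (j : ℕ) - (x j : ℝ)| ≤ |(x 0 : ℝ)| ^ (-l)}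

/-- The exponent `λ_n(ξ)` of simultaneous approximation to `ξ, ξ², ..., ξ^n`, as an extended real
number: the supremum of the real `l` for which there are infinitely many such points. -/
noncomputable def lambdaExp (n : ℕ) (ξ : ℝ) : EReal :=
  sSup {W : EReal | ∃ l : ℝ, W = (l : EReal) ∧ (solutions n ξ l).Infinite}

/-- The spectrum of `λ_n`: the set of its values at the transcendental real numbers. -/
def spectrum (n : ℕ) : Set EReal := {x | ∃ ξ : ℝ, Transcendental ℚ ξ ∧ lambdaExp n ξ = x}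

open Pool.Agent.TH970.SE

theorem sol_of_q {n : ℕ} (ξ l : ℝ) (h : (QSet n ξ l).Infinite) : (solutions n ξ l).Infinite := by
  intro hfin
  apply h
  apply (hfin.image (fun x => (x 0).natAbs)).subset
  rintro q ⟨hq, p, hp⟩
  refine ⟨fun j => if (j : ℕ) = 0 then (q : ℤ) else p j, ⟨?_, ?_⟩, ?_⟩
  · simp; omega
  · intro j hj
    have hj0 : ¬ (j : ℕ) = 0 := by omega
    have h1 := hp j (Finset.mem_Icc.2 ⟨hj, by have := j.2; omega⟩)
    simp only [Fin.val_zero, if_true, if_neg hj0]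
    push_cast
    rw [Nat.abs_cast]
    exact h1
  · simp

theorem q_of_sol {n : ℕ} (ξ l : ℝ) (hl : 0 < l) (h : (solutions n ξ l).Infinite) :
    (QSet n ξ l).Infinite := by
  intro hfin
  apply h
  obtain ⟨B, hB⟩ := hfin.bddAbove
  -- all coordinates are bounded
  obtain ⟨D, hD⟩ := exists_nat_gt ((B : ℝ) * (max 1 |ξ|) ^ n + 1)
  apply (Set.finite_Icc (fun _ : Fin (n + 1) => -((D : ℤ) + B)) (fun _ => (D : ℤ) + B)).subset
  rintro x ⟨hx0, hx⟩
  have habs : ((x 0).natAbs : ℝ) = |(x 0 : ℝ)| := by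
    rw [Nat.cast_natAbs]; push_cast; rfl
  have hpos : 1 ≤ (x 0).natAbs := Int.natAbs_pos.2 hx0
  have hq : (x 0).natAbs ∈ QSet n ξ l := by
    refine ⟨hpos, fun i => if h : i < n + 1 then (x 0).sign * x ⟨i, h⟩ else 0, ?_⟩
    intro i hi
    rw [Finset.mem_Icc] at hi
    have hin : i < n + 1 := by omega
    have h1 := hx ⟨i, hin⟩ hi.1
    simp only [dif_pos hin]
    have hs : ((x 0).natAbs : ℝ) = ((x 0).sign : ℝ) * (x 0 : ℝ) := by
      have := Int.sign_mul_self_eq_natAbs (x 0)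
      have h2 : (((x 0).sign * x 0 : ℤ) : ℝ) = (((x 0).natAbs : ℤ) : ℝ) := by rw [this]
      push_cast at h2
      rw [h2, Nat.cast_natAbs]
      push_cast
      rfl
    have hs1 : |((x 0).sign : ℝ)| = 1 := by
      have := Int.natAbs_sign_of_ne_zero hx0
      have h2 : (((x 0).sign.natAbs : ℕ) : ℝ) = 1 := by rw [this]; norm_num
      rw [Nat.cast_natAbs] at h2
      push_cast at h2
      exact h2
    calc |((x 0).natAbs : ℝ) * ξ ^ i - (((x 0).sign * x ⟨i, hin⟩ : ℤ) : ℝ)|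
        = |((x 0).sign : ℝ) * ((x 0 : ℝ) * ξ ^ i - (x ⟨i, hin⟩ : ℝ))| := by
          rw [hs]; push_cast; congr 1; ring
      _ = |(x 0 : ℝ) * ξ ^ i - (x ⟨i, hin⟩ : ℝ)| := by rw [abs_mul, hs1, one_mul]
      _ ≤ |(x 0 : ℝ)| ^ (-l) := h1
      _ = ((x 0).natAbs : ℝ) ^ (-l) := by rw [habs]
  have hqB : (x 0).natAbs ≤ B := hB hq
  have hqBR : |(x 0 : ℝ)| ≤ B := by rw [← habs]; exact_mod_cast hqB
  have h1R : (1 : ℝ) ≤ |(x 0 : ℝ)| := by rw [← habs]; exact_mod_cast hpos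
  have hall : ∀ j : Fin (n + 1), |(x j : ℝ)| ≤ (D : ℝ) + B := by
    intro j
    rcases Nat.eq_zero_or_pos (j : ℕ) with hj | hj
    · have : j = 0 := Fin.ext hj
      rw [this]
      have : (0 : ℝ) ≤ D := Nat.cast_nonneg D
      linarith
    · have h2 := hx j hj
      have h3 : |(x 0 : ℝ)| ^ (-l) ≤ 1 := Real.rpow_le_one_of_one_le_of_nonpos h1R (by linarith)
      have h4 : |(x j : ℝ)| ≤ |(x 0 : ℝ) * ξ ^ (j : ℕ)| + 1 := by
        have e : (x j : ℝ) = (x 0 : ℝ) * ξ ^ (j : ℕ) -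
          ((x 0 : ℝ) * ξ ^ (j : ℕ) - (x j : ℝ)) := by ring
        rw [e]
        refine (abs_sub _ _).trans ?_
        linarith
      have h5 : |(x 0 : ℝ) * ξ ^ (j : ℕ)| ≤ B * (max 1 |ξ|) ^ n := by
        rw [abs_mul, abs_pow]
        apply mul_le_mul hqBR _ (by positivity) (Nat.cast_nonneg B)
        calc |ξ| ^ (j : ℕ) ≤ (max 1 |ξ|) ^ (j : ℕ) :=
              pow_le_pow_left₀ (abs_nonneg _) (le_max_right _ _) _
          _ ≤ (max 1 |ξ|) ^ n := pow_le_pow_right₀ (le_max_left _ _) (by have := j.2; omega)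
      have : (0 : ℝ) ≤ B := Nat.cast_nonneg B
      linarith
  rw [Set.mem_Icc, Pi.le_def, Pi.le_def]
  constructor
  · intro j
    have := (abs_le.1 (hall j)).1
    exact_mod_cast this
  · intro j
    have := (abs_le.1 (hall j)).2
    exact_mod_cast this

theorem le_lambda {n : ℕ} (ξ l : ℝ) (h : ∀ m : ℝ, m < l → (QSet n ξ m).Infinite) :
    (l : EReal) ≤ lambdaExp n ξ := by
  apply le_of_forall_lt
  intro c hc
  obtain ⟨r, hr1, hr2⟩ := EReal.lt_iff_exists_real_btwn.1 hc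
  have hr2' : r < l := by exact_mod_cast hr2
  exact lt_of_lt_of_le hr1 (le_sSup ⟨r, rfl, sol_of_q ξ r (h r hr2')⟩)

theorem lambda_le {n : ℕ} (ξ l : ℝ) (hl : 0 < l) (h : ∀ m : ℝ, l < m → (QSet n ξ m).Finite) :
    lambdaExp n ξ ≤ (l : EReal) := by
  apply sSup_le
  rintro W ⟨r, rfl, hr⟩
  rw [EReal.coe_le_coe_iff]
  by_contra hcon
  push Not at hcon
  exact q_of_sol ξ r (by linarith) hr (h r hcon)

theorem irr_of_trans {ξ : ℝ} (h : Transcendental ℚ ξ) : Irrational ξ := by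
  rintro ⟨q, rfl⟩
  exact h (isAlgebraic_algebraMap q)

/-- For every `n ≥ 1` the spectrum of `λ_n` is the interval `[1/n, ∞]`. -/
theorem result : ∀ n : ℕ, 1 ≤ n → spectrum n = Set.Icc ((1 / (n : ℝ) : ℝ) : EReal) ⊤ := by
  intro n hn
  have hn0 : (0 : ℝ) < n := by exact_mod_cast hn
  apply Set.Subset.antisymm
  · rintro x ⟨ξ, hξ, rfl⟩
    exact ⟨le_lambda ξ _ (fun m hm => lam_lower hn ξ (irr_of_trans hξ) m hm), le_top⟩
  · rintro x ⟨hx, -⟩
    induction x with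
    | bot => exact absurd (le_bot_iff.1 hx) (EReal.coe_ne_bot _)
    | top =>
      refine ⟨liouvilleNumber (2 : ℕ), ?_, ?_⟩
      · intro h
        exact transcendental_liouvilleNumber (m := 2) le_rfl
          ((IsFractionRing.isAlgebraic_iff ℤ ℚ ℝ).2 h)
      · rw [EReal.eq_top_iff_forall_lt]
        intro y
        refine lt_of_lt_of_le ?_ (le_lambda _ (y + 1) (fun m _ => lam_top hn m))
        have : y < y + 1 := by linarith
        exact_mod_cast this
    | coe l =>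
      have hl : 1 / (n : ℝ) ≤ l := by exact_mod_cast hx
      have hl0 : 0 < l := lt_of_lt_of_le (by positivity) hl
      have hcount : {x : ℝ | IsAlgebraic ℚ x}.Countable := Algebraic.countable ℚ ℝ
      obtain ⟨av, hav⟩ := hcount.exists_eq_range ⟨0, isAlgebraic_zero⟩
      obtain ⟨ξ, h0, h1, h2⟩ := lam_real hn l hl av
      refine ⟨ξ, ?_, le_antisymm (lambda_le ξ l hl0 h2) (le_lambda ξ l h1)⟩
      intro hξ
      have : ξ ∈ {x : ℝ | IsAlgebraic ℚ x} := hξ
      rw [hav] at this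
      obtain ⟨k, hk⟩ := this
      exact h0 k hk.symm

end Pool.Agent.Results.MP_d6cb56_nt.SimultaneousSpectrum
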